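import Pool.Agent.H220.C6.Solve
import Pool.Agent.H220.C6.Psh
import Pool.Agent.H220.C6.Meas
import Pool.Agent.H220.C6.NonHol

/-!
# Solutions of Monge–Ampère equations for semipositive big forms need not be Hölder continuous

There are a compact connected Kähler threefold `X` (a `ℙ¹`-bundle over the product of two elliptic
curves), a smooth closed semipositive big `(1,1)`-form `θ` on `X` and a bounded measurable density
`f ≥ 0` such that the equation `(θ + dd^c φ)³ = f κ³` has a bounded `θ`-psh solution `φ` which is not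
Hölder continuous on `X`.
-/

set_option autoImplicit false

open Filter Metric Set Topology MeasureTheory
open scoped Manifold ContDiff
open Pool.Agent.H220.C6

namespace Pool.Agent.Results.MP_c617b9_an.NotHolder

/-- **A non-Hölder solution.** There are a compact connected Kähler manifold `X` of dimension `3`
with Kähler form `κ`, a smooth closed semipositive and big `(1,1)`-form `θ` on `X`, a bounded
Borel function `f ≥ 0` (so that `f` lies in `L^p(κ³)` for all `p`) and a bounded `θ`-psh function `φ`
with `(θ + dd^c φ)³ = f κ³` which is not Hölder continuous. -/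
theorem result : ∃ (X : Type) (_ : TopologicalSpace X) (_ : ChartedSpace E X),
    IsManifold 𝓘(ℂ, E) ω X ∧ T2Space X ∧ CompactSpace X ∧ ConnectedSpace X ∧
    ∃ (κ θ : ClosedForm X) (φ f : X → ℝ),
      κ.IsKahler ∧ θ.IsSemipositive ∧ θ.IsBig ∧
      Measurable[borel X] f ∧ (∃ C : ℝ, ∀ x, 0 ≤ f x ∧ f x ≤ C) ∧
      (∃ C : ℝ, ∀ x, |φ x| ≤ C) ∧ θ.IsPsh φ ∧ SolvesMA θ κ φ f ∧ ¬ IsHolder φ := by
  have hα : Irrational (Real.sqrt 2 - 1) := by
    have := irrational_sqrt_two.sub_natCast 1
    rwa [Nat.cast_one] at this
  have hα1 : |Real.sqrt 2 - 1| ≤ 1 := by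
    have h1 : 1 ≤ Real.sqrt 2 := Real.one_le_sqrt.2 (by norm_num)
    have h2 : Real.sqrt 2 ≤ 2 := by
      rw [Real.sqrt_le_left (by norm_num)]
      norm_num
    rw [abs_le]
    constructor <;> linarith
  set α : ℝ := Real.sqrt 2 - 1
  obtain ⟨φ, hφ⟩ := exists_phi α
  obtain ⟨f, hf⟩ := exists_f α
  exact ⟨X3, inferInstance, inferInstance, inferInstance, inferInstance, inferInstance,
    inferInstance, form 0 1, form α 0, φ, f, form_kahler one_pos, form_semipositive α, form_big α,
    measurable_f hf, f_bounds hf, phi_bounds hα hφ, phi_psh hφ, solves hφ hf,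
    not_holder hα hα1 hφ⟩

end Pool.Agent.Results.MP_c617b9_an.NotHolder
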